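import Pool.Agent.W230.CSTS.Design3

/-! An isomorphism class of designs on `ZMod n` contains at most `n` designs that are invariant
under translation by one. -/

set_option autoImplicit false

open Finset

namespace Pool.Agent.W230.CSTS

section
variable {n : ℕ} [NeZero n]

/-- Isomorphism of block sets on `ZMod n`. -/
def Iso (B C : Finset (Finset (ZMod n))) : Prop :=
  ∃ σ : Equiv.Perm (ZMod n), ∀ b : Finset (ZMod n), b ∈ B ↔ b.map σ.toEmbedding ∈ C

/-- action of a permutation on sets -/
def act (σ : Equiv.Perm (ZMod n)) (b : Finset (ZMod n)) : Finset (ZMod n) := b.map σ.toEmbedding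

theorem act_mul (σ τ : Equiv.Perm (ZMod n)) (b : Finset (ZMod n)) :
    act (σ * τ) b = act σ (act τ b) := by
  ext x
  simp only [act, mem_map_equiv]
  rfl

theorem act_one (b : Finset (ZMod n)) : act (1 : Equiv.Perm (ZMod n)) b = b := by
  ext x
  simp only [act, mem_map_equiv]
  rfl

theorem act_inv_act (σ : Equiv.Perm (ZMod n)) (b : Finset (ZMod n)) : act σ⁻¹ (act σ b) = b := by
  rw [← act_mul, inv_mul_cancel, act_one]

theorem act_act_inv (σ : Equiv.Perm (ZMod n)) (b : Finset (ZMod n)) : act σ (act σ⁻¹ b) = b := by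
  rw [← act_mul, mul_inv_cancel, act_one]

/-- the translation -/
def tau (n : ℕ) : Equiv.Perm (ZMod n) := Equiv.addRight 1

theorem tau_pow (j : ℕ) (x : ZMod n) : ((tau n) ^ j) x = x + j := by
  induction j with
  | zero => simp
  | succ j ih =>
    rw [pow_succ', Equiv.Perm.mul_apply, ih]
    simp [tau, add_assoc]

theorem conj_apply (ψ : Equiv.Perm (ZMod n)) (j : ℕ) (x : ZMod n) :
    ψ ((ψ⁻¹ * (tau n) ^ j * ψ) x) = ψ x + j := by
  rw [Equiv.Perm.mul_apply, Equiv.Perm.mul_apply, tau_pow]
  simp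

theorem act_tau (b : Finset (ZMod n)) : act (tau n) b = b.image (fun x => x + 1) := by
  ext x
  simp only [act, mem_map, mem_image]
  rfl

theorem shift_iff {C : Finset (Finset (ZMod n))} (hC : ∀ b ∈ C, b.image (fun x => x + 1) ∈ C)
    (b : Finset (ZMod n)) : b ∈ C ↔ act (tau n) b ∈ C := by
  constructor
  · intro h; rw [act_tau]; exact hC b h
  · intro h
    have key : ∀ j : ℕ, act ((tau n) ^ j * tau n) b ∈ C := by
      intro j
      induction j with
      | zero => simpa using h
      | succ j ih =>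
        have : (tau n) ^ (j + 1) * tau n = tau n * ((tau n) ^ j * tau n) := by
          rw [pow_succ', mul_assoc]
        rw [this, act_mul, act_tau]
        exact hC _ ih
    have h1 := key (n - 1)
    have hn : 0 < n := Nat.pos_of_ne_zero (NeZero.ne n)
    have h2 : (tau n) ^ (n - 1) * tau n = 1 := by
      rw [← pow_succ, Nat.sub_add_cancel hn]
      ext x
      rw [tau_pow]; simp
    rwa [h2, act_one] at h1

theorem card_le (B : Finset (Finset (ZMod n))) (𝒞 : Finset (Finset (Finset (ZMod n))))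
    (h1 : ∀ C ∈ 𝒞, Iso B C) (h2 : ∀ C ∈ 𝒞, ∀ b ∈ C, b.image (fun x => x + 1) ∈ C) :
    𝒞.card ≤ n := by
  classical
  choose! σ hσ using h1
  let A : Finset (Equiv.Perm (ZMod n)) := univ.filter (fun α => ∀ b, b ∈ B ↔ act α b ∈ B)
  have hA : 0 < A.card := by
    apply Finset.card_pos.2
    refine ⟨1, ?_⟩
    simp only [A, mem_filter, mem_univ, true_and, act_one]
    intro b; trivial
  let F : (Finset (Finset (ZMod n))) × Equiv.Perm (ZMod n) → Equiv.Perm (ZMod n) × ZMod n :=
    fun t => ((σ t.1 * t.2)⁻¹ * tau n * (σ t.1 * t.2), (σ t.1 * t.2) 0)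
  have hF : ∀ t ∈ 𝒞 ×ˢ A, F t ∈ A ×ˢ (univ : Finset (ZMod n)) := by
    rintro ⟨C, α⟩ ht
    rw [mem_product] at ht
    obtain ⟨hC, hα⟩ := ht
    simp only [A, mem_filter, mem_univ, true_and] at hα
    simp only [F, mem_product, mem_univ, and_true, A, mem_filter, true_and]
    have hφ : ∀ b, b ∈ B ↔ act (σ C * α) b ∈ C := by
      intro b
      rw [hα b, act_mul]
      exact hσ C hC _
    intro b
    rw [hφ b, shift_iff (h2 C hC), hφ, ← act_mul, ← act_mul]
    have : tau n * (σ C * α) = σ C * α * ((σ C * α)⁻¹ * tau n * (σ C * α)) := by group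
    rw [← this]
  have hinj : Set.InjOn F (𝒞 ×ˢ A : Finset _) := by
    rintro ⟨C, α⟩ ht ⟨C', α'⟩ ht' hh
    rw [mem_coe, mem_product] at ht ht'
    obtain ⟨hC, hα⟩ := ht
    obtain ⟨hC', hα'⟩ := ht'
    simp only [A, mem_filter, mem_univ, true_and] at hα hα'
    simp only [F, Prod.mk.injEq] at hh
    obtain ⟨hc, h0⟩ := hh
    have hφ : ∀ b, b ∈ B ↔ act (σ C * α) b ∈ C := by
      intro b
      rw [hα b, act_mul]
      exact hσ C hC _
    have hφ' : ∀ b, b ∈ B ↔ act (σ C' * α') b ∈ C' := by
      intro b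
      rw [hα' b, act_mul]
      exact hσ C' hC' _
    set φ := σ C * α with hphi
    set φ' := σ C' * α' with hphi'
    have hcomm : ∀ j : ℕ, (φ⁻¹ * tau n * φ) ^ j = φ⁻¹ * (tau n) ^ j * φ := by
      intro j
      induction j with
      | zero => simp
      | succ j ih => rw [pow_succ, ih, pow_succ]; group
    have hcomm' : ∀ j : ℕ, (φ⁻¹ * tau n * φ) ^ j = φ'⁻¹ * (tau n) ^ j * φ' := by
      intro j
      rw [hc]
      induction j with
      | zero => simp
      | succ j ih => rw [pow_succ, ih, pow_succ]; group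
    have hφφ : φ = φ' := by
      ext x
      have e1 : ((φ x - φ 0).val : ZMod n) = φ x - φ 0 := ZMod.natCast_zmod_val _
      have e2 : ((φ⁻¹ * tau n * φ) ^ (φ x - φ 0).val) 0 = x := by
        rw [hcomm, Equiv.Perm.mul_apply, Equiv.Perm.mul_apply, tau_pow, e1]
        simp
      have e3 : φ' (((φ⁻¹ * tau n * φ) ^ (φ x - φ 0).val) 0) = φ' 0 + (φ x - φ 0) := by
        rw [hcomm', conj_apply φ', e1]
      rw [e2] at e3
      rw [e3, h0]; ring
    have hCC : C = C' := by
      ext b
      have e1 := hφ (act φ⁻¹ b)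
      have e2 := hφ' (act φ⁻¹ b)
      rw [act_act_inv] at e1
      rw [← hφφ, act_act_inv] at e2
      exact e1.symm.trans e2
    subst hCC
    have : α = α' := mul_left_cancel (hphi.symm.trans (hφφ.trans hphi'))
    rw [this]
  have h3 := Finset.card_le_card_of_injOn F hF hinj
  rw [card_product, card_product, Finset.card_univ, ZMod.card, mul_comm] at h3
  exact Nat.le_of_mul_le_mul_left h3 hA

theorem Iso.refl (B : Finset (Finset (ZMod n))) : Iso B B :=
  ⟨1, fun b => by rw [show b.map (1 : Equiv.Perm (ZMod n)).toEmbedding = b from act_one b]⟩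

theorem Iso.symm {B C : Finset (Finset (ZMod n))} (h : Iso B C) : Iso C B := by
  obtain ⟨σ, hσ⟩ := h
  refine ⟨σ⁻¹, fun b => ?_⟩
  have := hσ (act σ⁻¹ b)
  change _ ↔ act σ (act σ⁻¹ b) ∈ C at this
  rw [act_act_inv] at this
  exact this.symm

theorem Iso.trans {B C D : Finset (Finset (ZMod n))} (h : Iso B C) (h' : Iso C D) : Iso B D := by
  obtain ⟨σ, hσ⟩ := h
  obtain ⟨τ, hτ⟩ := h'
  refine ⟨τ * σ, fun b => ?_⟩
  change _ ↔ act (τ * σ) b ∈ D
  rw [act_mul]
  exact (hσ b).trans (hτ _)

end

/-- Main counting statement: if `n * M ≤ 2 ^ ((n - 1) / 6)` then there are `M` pairwise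
non-isomorphic cyclic systems. -/
theorem exists_family (n M : ℕ) [NeZero n] (h : n % 6 = 1 ∨ n % 6 = 3) (b : ℕ → ℕ)
    (H : Heff n ((n - 1) / 6) b) (hM : n * M ≤ 2 ^ ((n - 1) / 6)) :
    ∃ B : Fin M → Finset (Finset (ZMod n)), (∀ i, IsCyc n (B i)) ∧
      ∀ i j, i ≠ j → ¬ Iso (B i) (B j) := by
  classical
  set k := (n - 1) / 6 with hk
  let ext : (Fin k → Bool) → (ℕ → Bool) := fun e i => if hi : i < k then e ⟨i, hi⟩ else false
  let D : (Fin k → Bool) → Finset (Finset (ZMod n)) := fun e => BB n b (ext e)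
  have hD : Function.Injective D := by
    intro e e' hee
    funext i
    have := BB_inj h H (ext e) (ext e') hee i i.2
    simpa [ext] using this
  have hcyc : ∀ e, IsCyc n (D e) := fun e => isCyc_BB h H _
  let st : Setoid (Fin k → Bool) :=
    { r := fun e e' => Iso (D e) (D e')
      iseqv := ⟨fun e => Iso.refl _, fun h => Iso.symm h, fun h h' => Iso.trans h h'⟩ }
  let Q := Quotient st
  have hfib : ∀ q : Q, (univ.filter (fun e : Fin k → Bool => (Quotient.mk st e : Q) = q)).card ≤ n := by
    intro q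
    obtain ⟨e0, rfl⟩ := Quotient.exists_rep q
    have h1 : ((univ.filter (fun e : Fin k → Bool => (Quotient.mk st e : Q) = Quotient.mk st e0)).image D).card ≤ n := by
      apply card_le (D e0)
      · intro C hC
        obtain ⟨e, he, rfl⟩ := Finset.mem_image.1 hC
        have he' : (Quotient.mk st e : Q) = Quotient.mk st e0 := by simpa using he
        exact Iso.symm (Quotient.exact he')
      · intro C hC
        obtain ⟨e, he, rfl⟩ := Finset.mem_image.1 hC
        exact (hcyc e).2.2
    rwa [Finset.card_image_of_injective _ hD] at h1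
  have hQ : M ≤ Fintype.card Q := by
    have h1 : (univ : Finset (Fin k → Bool)).card ≤ n * (univ : Finset Q).card := by
      apply Finset.card_le_mul_card_image_of_maps_to (f := fun e => (Quotient.mk st e : Q))
      · intro e _; exact mem_univ _
      · intro q _; exact hfib q
    rw [Finset.card_univ, Finset.card_univ, Fintype.card_fun, Fintype.card_bool, Fintype.card_fin] at h1
    have h2 : n * M ≤ n * Fintype.card Q := hM.trans h1
    exact Nat.le_of_mul_le_mul_left h2 (Nat.pos_of_ne_zero (NeZero.ne n))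
  obtain ⟨g⟩ : Nonempty (Fin M ↪ Q) := by
    apply Function.Embedding.nonempty_of_card_le
    simpa using hQ
  refine ⟨fun i => D (Quotient.out (g i)), fun i => hcyc _, ?_⟩
  intro i j hij hiso
  apply hij
  apply g.injective
  have : (Quotient.mk st (Quotient.out (g i)) : Q) = Quotient.mk st (Quotient.out (g j)) :=
    Quotient.sound hiso
  rwa [Quotient.out_eq, Quotient.out_eq] at this

theorem pow_bound (M : ℕ) : ∃ N : ℕ, ∀ n : ℕ, N ≤ n → n * M ≤ 2 ^ ((n - 1) / 6) := by
  -- 2 ^ k ≥ k^2 for k ≥ 4; n ≤ 6 k + 6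
  refine ⟨6 * (12 * M + 12) + 100, fun n hn => ?_⟩
  set k := (n - 1) / 6 with hk
  have h1 : n ≤ 6 * k + 6 := by omega
  have h2 : 12 * M + 12 ≤ k := by omega
  have h3 : k ^ 2 ≤ 2 ^ k := by
    have : ∀ m : ℕ, 4 ≤ m → m ^ 2 ≤ 2 ^ m := by
      intro m hm
      induction m, hm using Nat.le_induction with
      | base => norm_num
      | succ m hm ih =>
        rw [pow_succ 2 m]
        nlinarith
    exact this k (by omega)
  refine le_trans ?_ h3
  nlinarith

end Pool.Agent.W230.CSTS
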