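import Pool.Agent.W230.CSTS.Heffter

/-! From Heffter data to `2 ^ k` labelled cyclic Steiner triple systems. -/

set_option autoImplicit false

open Finset

namespace Pool.Agent.W230.CSTS

/-- The block set `B` is a Steiner triple system on `ZMod n` invariant under `x ↦ x + 1`. -/
def IsCyc (n : ℕ) (B : Finset (Finset (ZMod n))) : Prop :=
  (∀ b ∈ B, b.card = 3) ∧
  (∀ x y : ZMod n, x ≠ y → ∃! b : Finset (ZMod n), b ∈ B ∧ x ∈ b ∧ y ∈ b) ∧
  (∀ b ∈ B, b.image (fun x => x + 1) ∈ B)

section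
variable {n k : ℕ}

theorem cast_eq_iff {u v : ℕ} (hu : u < n) (hv : v < n) : ((u : ZMod n) = v) ↔ u = v := by
  constructor
  · intro h
    have := (ZMod.natCast_eq_natCast_iff' u v n).1 h
    rwa [Nat.mod_eq_of_lt hu, Nat.mod_eq_of_lt hv] at this
  · rintro rfl; rfl

theorem cast_neg_iff {u v : ℕ} (hu : u < n) (hv : v < n) (hpos : 0 < u + v) :
    ((u : ZMod n) = - (v : ZMod n)) ↔ u + v = n := by
  constructor
  · intro h
    have h2 : ((u + v : ℕ) : ZMod n) = 0 := by push_cast; rw [h]; ring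
    have h3 := (ZMod.natCast_eq_zero_iff (u + v) n).1 h2
    obtain ⟨c, hc⟩ := h3
    have : c = 1 := by
      rcases Nat.lt_or_ge c 1 with h0 | h0
      · have : c = 0 := by omega
        subst this; omega
      · rcases Nat.lt_or_ge c 2 with h1 | h1
        · omega
        · have : n * 2 ≤ n * c := Nat.mul_le_mul_left n h1
          omega
    subst this; omega
  · intro h
    have h2 : ((u + v : ℕ) : ZMod n) = 0 := by rw [h]; simp
    push_cast at h2
    exact eq_neg_of_add_eq_zero_left h2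

theorem three_ne {u : ℕ} (hu : u < n) (h0 : 0 < u) (h1 : 3 * u ≠ n) (h2 : 3 * u ≠ 2 * n) :
    (3 : ZMod n) * (u : ZMod n) ≠ 0 := by
  intro h
  have h2 : ((3 * u : ℕ) : ZMod n) = 0 := by push_cast; exact h
  have h3 := (ZMod.natCast_eq_zero_iff (3 * u) n).1 h2
  obtain ⟨c, hc⟩ := h3
  have h5 : c < 3 := by
    by_contra hcon
    have : n * 3 ≤ n * c := Nat.mul_le_mul_left n (by omega)
    omega
  interval_cases c <;> omega

/-- The three residues attached to the index `i`. -/
def vv (n : ℕ) (b : ℕ → ℕ) (i : ℕ) (j : Fin 3) : ℕ :=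
  match j with
  | 0 => i + 1
  | 1 => b (i + 1)
  | 2 => (i + 1) + b (i + 1)

theorem vv_inj {b : ℕ → ℕ} (H : Heff n k b) {i i' : ℕ} (hi : i < k) (hi' : i' < k) {j j' : Fin 3} :
    0 < vv n b i j ∧ vv n b i j < n ∧ 3 * vv n b i j ≠ n ∧ 3 * vv n b i j ≠ 2 * n ∧
    vv n b i j + vv n b i' j' ≠ n ∧ (vv n b i j = vv n b i' j' → i = i' ∧ j = j') := by
  have h1 := H.pr (i + 1) (i' + 1) (by omega) (by omega) (by omega) (by omega)
  have h2 := H.pr (i' + 1) (i + 1) (by omega) (by omega) (by omega) (by omega)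
  have h3 := H.lt (i + 1) (by omega) (by omega)
  have h3' := H.lt (i' + 1) (by omega) (by omega)
  have h4 := H.b3 (i + 1) (by omega) (by omega)
  have h5 := H.c3 (i + 1) (by omega) (by omega)
  by_cases hii : i = i'
  · subst hii
    fin_cases j <;> fin_cases j' <;> simp only [vv] <;> simp <;> omega
  · fin_cases j <;> fin_cases j' <;> simp only [vv] <;> simp <;> omega

end

end Pool.Agent.W230.CSTS
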