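import Pool.Agent.W230.CSTS.Design

set_option autoImplicit false

open Finset

namespace Pool.Agent.W230.CSTS

section
variable {n k : ℕ}

/-- Sign. -/
def sg (n : ℕ) (s : Bool) (x : ZMod n) : ZMod n := if s then x else -x

theorem sg_inj {b : ℕ → ℕ} (H : Heff n k b) {i i' : ℕ} (hi : i < k) (hi' : i' < k) {j j' : Fin 3}
    {s s' : Bool} (h : sg n s (vv n b i j : ZMod n) = sg n s' (vv n b i' j' : ZMod n)) :
    i = i' ∧ j = j' ∧ s = s' := by
  obtain ⟨h1, h2, h3, h4, h5, h6⟩ := vv_inj (n := n) H hi hi' (j := j) (j' := j')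
  obtain ⟨g1, g2, g3, g4, g5, g6⟩ := vv_inj (n := n) H hi' hi (j := j') (j' := j)
  rcases s with _ | _ <;> rcases s' with _ | _ <;> simp only [sg] at h <;> simp only [Bool.false_eq_true, if_true, if_false] at h
  · rw [neg_inj, cast_eq_iff h2 g2] at h
    exact ⟨(h6 h).1, (h6 h).2, rfl⟩
  · exact absurd ((cast_neg_iff g2 h2 (by omega)).1 h.symm) g5
  · exact absurd ((cast_neg_iff h2 g2 (by omega)).1 h) h5
  · rw [cast_eq_iff h2 g2] at h
    exact ⟨(h6 h).1, (h6 h).2, rfl⟩

theorem sg_three {b : ℕ → ℕ} (H : Heff n k b) {i : ℕ} (hi : i < k) {j : Fin 3}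
    {s : Bool} : 3 * sg n s (vv n b i j : ZMod n) ≠ 0 := by
  obtain ⟨h1, h2, h3, h4, h5, h6⟩ := vv_inj (n := n) H hi hi (j := j) (j' := j)
  have := three_ne h2 h1 h3 h4
  rcases s with _ | _ <;> simp only [sg] <;> simpa using this

/-- Positions of the points of a base block. -/
def pos (n : ℕ) (b : ℕ → ℕ) (e : Bool) (i : ℕ) (u : Fin 3) : ZMod n :=
  match u with
  | 0 => 0
  | 1 => if e then (vv n b i 0 : ZMod n) else (vv n b i 1 : ZMod n)
  | 2 => (vv n b i 2 : ZMod n)

/-- Which of the six differences is `pos w - pos u`. -/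
def idx (e : Bool) (u w : Fin 3) : Fin 3 × Bool :=
  match u, w with
  | 0, 1 => if e then (0, true) else (1, true)
  | 1, 0 => if e then (0, false) else (1, false)
  | 0, 2 => (2, true)
  | 2, 0 => (2, false)
  | 1, 2 => if e then (1, true) else (0, true)
  | 2, 1 => if e then (1, false) else (0, false)
  | _, _ => (0, true)

theorem idx_inj (e : Bool) (u w u' w' : Fin 3) (h : u ≠ w) (h' : u' ≠ w')
    (hh : idx e u w = idx e u' w') : u = u' ∧ w = w' := by
  revert e u w u' w'
  decide

theorem pos_sub (b : ℕ → ℕ) (e : Bool) (i : ℕ) (u w : Fin 3) (h : u ≠ w) :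
    pos n b e i w - pos n b e i u = sg n (idx e u w).2 (vv n b i (idx e u w).1 : ZMod n) := by
  rcases e with _ | _ <;> fin_cases u <;> fin_cases w <;> simp [pos, idx, sg, vv] at h ⊢

theorem pos_inj {b : ℕ → ℕ} (H : Heff n k b) (e : ℕ → Bool) {i i' : ℕ} (hi : i < k) (hi' : i' < k)
    {u w u' w' : Fin 3} (h : u ≠ w) (h' : u' ≠ w')
    (hh : pos n b (e i) i w - pos n b (e i) i u = pos n b (e i') i' w' - pos n b (e i') i' u') :
    i = i' ∧ u = u' ∧ w = w' := by
  rw [pos_sub b _ i u w h, pos_sub b _ i' u' w' h'] at hh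
  obtain ⟨h1, h2, h3⟩ := sg_inj H hi hi' hh
  subst h1
  obtain ⟨h4, h5⟩ := idx_inj (e i) u w u' w' h h' (Prod.ext h2 h3)
  exact ⟨rfl, h4, h5⟩

theorem pos_three {b : ℕ → ℕ} (H : Heff n k b) (e : ℕ → Bool) {i : ℕ} (hi : i < k)
    {u w : Fin 3} (h : u ≠ w) :
    3 * (pos n b (e i) i w - pos n b (e i) i u) ≠ 0 := by
  rw [pos_sub b _ i u w h]
  exact sg_three H hi

theorem pos_injective {b : ℕ → ℕ} (H : Heff n k b) (e : ℕ → Bool) {i : ℕ} (hi : i < k) :
    Function.Injective (pos n b (e i) i) := by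
  intro u w huw
  by_contra hne
  have := pos_three H e hi (u := u) (w := w) hne
  rw [huw] at this
  simp at this

variable [NeZero n]

theorem card_three_eq (h : n % 6 = 1 ∨ n % 6 = 3) :
    (univ.filter (fun d : ZMod n => 3 * d = 0)).card = if n % 6 = 3 then 3 else 1 := by
  have key : ∀ d : ZMod n, 3 * d = 0 → 3 * d.val = 0 ∨ 3 * d.val = n ∨ 3 * d.val = 2 * n := by
    intro d hd
    have h1 : ((3 * d.val : ℕ) : ZMod n) = 0 := by
      push_cast; rw [ZMod.natCast_zmod_val]; exact hd
    obtain ⟨c, hc⟩ := (ZMod.natCast_eq_zero_iff _ n).1 h1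
    have h2 := ZMod.val_lt d
    have h5 : c < 3 := by
      by_contra hcon
      have : n * 3 ≤ n * c := Nat.mul_le_mul_left n (by omega)
      omega
    interval_cases c
    · left; omega
    · right; left; omega
    · right; right; omega
  rcases h with h | h
  · rw [if_neg (by omega)]
    have : univ.filter (fun d : ZMod n => 3 * d = 0) = {0} := by
      ext d
      simp only [mem_filter, mem_univ, true_and, mem_singleton]
      constructor
      · intro hd
        have := key d hd
        have h2 : d.val = 0 := by omega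
        exact (ZMod.val_eq_zero d).1 h2
      · rintro rfl; simp
    rw [this]; simp
  · rw [if_pos h]
    obtain ⟨m, hm⟩ : ∃ m, n = 3 * m := ⟨n / 3, by omega⟩
    have hmpos : 0 < m := by omega
    have hmn : m < n := by omega
    have h2mn : 2 * m < n := by omega
    have h3m : (3 : ZMod n) * (m : ZMod n) = 0 := by
      have : ((3 * m : ℕ) : ZMod n) = 0 := by rw [← hm]; simp
      push_cast at this; exact this
    have : univ.filter (fun d : ZMod n => 3 * d = 0) = {((0 : ℕ) : ZMod n), (m : ZMod n), ((2 * m : ℕ) : ZMod n)} := by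
      ext d
      simp only [mem_filter, mem_univ, true_and, mem_singleton, mem_insert]
      constructor
      · intro hd
        have hk := key d hd
        have h3 : d = (d.val : ZMod n) := (ZMod.natCast_zmod_val d).symm
        rw [h3, cast_eq_iff (ZMod.val_lt d) (by omega), cast_eq_iff (ZMod.val_lt d) hmn,
          cast_eq_iff (ZMod.val_lt d) h2mn]
        omega
      · rintro (rfl | rfl | rfl)
        · simp
        · exact h3m
        · push_cast; linear_combination 2 * h3m
    rw [this]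
    have e1 : ((0 : ℕ) : ZMod n) ≠ (m : ZMod n) := by
      rw [Ne, cast_eq_iff (by omega) hmn]; omega
    have e2 : ((0 : ℕ) : ZMod n) ≠ ((2 * m : ℕ) : ZMod n) := by
      rw [Ne, cast_eq_iff (by omega) h2mn]; omega
    have e3 : (m : ZMod n) ≠ ((2 * m : ℕ) : ZMod n) := by
      rw [Ne, cast_eq_iff hmn h2mn]; omega
    exact Finset.card_eq_three.2 ⟨_, _, _, e1, e2, e3, rfl⟩

theorem card_three_ne (h : n % 6 = 1 ∨ n % 6 = 3) :
    (univ.filter (fun d : ZMod n => 3 * d ≠ 0)).card = 6 * ((n - 1) / 6) := by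
  have h1 := Finset.card_filter_add_card_filter_not (s := (univ : Finset (ZMod n)))
    (fun d : ZMod n => 3 * d = 0)
  rw [card_three_eq h, Finset.card_univ, ZMod.card] at h1
  simp only [ne_eq]
  split_ifs at h1 <;> omega

/-- Every difference not killed by three occurs. -/
theorem pos_surj {b : ℕ → ℕ} (h : n % 6 = 1 ∨ n % 6 = 3) (H : Heff n ((n - 1) / 6) b) (e : ℕ → Bool)
    (d : ZMod n) (hd : 3 * d ≠ 0) :
    ∃ i, i < (n - 1) / 6 ∧ ∃ u w : Fin 3, u ≠ w ∧ pos n b (e i) i w - pos n b (e i) i u = d := by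
  classical
  set k := (n - 1) / 6 with hk
  let S : Finset (ℕ × Fin 3 × Fin 3) := (range k ×ˢ (univ ×ˢ univ)).filter (fun t => t.2.1 ≠ t.2.2)
  let f : ℕ × Fin 3 × Fin 3 → ZMod n := fun t => pos n b (e t.1) t.1 t.2.2 - pos n b (e t.1) t.1 t.2.1
  have hS : S.card = 6 * k := by
    have : S = range k ×ˢ ((univ : Finset (Fin 3 × Fin 3)).filter (fun t => t.1 ≠ t.2)) := by
      ext ⟨i, u, w⟩
      simp [S]
    rw [this, Finset.card_product, Finset.card_range]
    have h6 : ((univ : Finset (Fin 3 × Fin 3)).filter (fun t => t.1 ≠ t.2)).card = 6 := by decide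
    rw [h6]; ring
  have hinj : Set.InjOn f (S : Set (ℕ × Fin 3 × Fin 3)) := by
    rintro ⟨i, u, w⟩ ht ⟨i', u', w'⟩ ht' hff
    simp only [S, coe_filter, mem_product, mem_range, mem_univ, and_true, Set.mem_ofPred_eq] at ht ht'
    obtain ⟨h1, h2, h3⟩ := pos_inj H e ht.1 ht'.1 ht.2 ht'.2 hff
    subst h1; subst h2; subst h3; rfl
  have himg : S.image f ⊆ univ.filter (fun d : ZMod n => 3 * d ≠ 0) := by
    intro x hx
    obtain ⟨⟨i, u, w⟩, ht, rfl⟩ := Finset.mem_image.1 hx
    simp only [S, mem_filter, mem_product, mem_range, mem_univ, and_true] at ht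
    simp only [mem_filter, mem_univ, true_and]
    exact pos_three H e ht.1 ht.2
  have heq : S.image f = univ.filter (fun d : ZMod n => 3 * d ≠ 0) := by
    apply Finset.eq_of_subset_of_card_le himg
    rw [card_three_ne h, Finset.card_image_of_injOn hinj, hS]
  have hd' : d ∈ S.image f := by rw [heq]; simpa using hd
  obtain ⟨⟨i, u, w⟩, ht, rfl⟩ := Finset.mem_image.1 hd'
  simp only [S, mem_filter, mem_product, mem_range, mem_univ, and_true] at ht
  exact ⟨i, ht.1, u, w, ht.2, rfl⟩

end

end Pool.Agent.W230.CSTS
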