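import Pool.Agent.W230.CSTS.Design2

set_option autoImplicit false

open Finset

namespace Pool.Agent.W230.CSTS

section
variable {n : ℕ} [NeZero n]

/-- A full-orbit block. -/
def blk (n : ℕ) (b : ℕ → ℕ) (e : ℕ → Bool) (i : ℕ) (a : ZMod n) : Finset (ZMod n) :=
  (univ : Finset (Fin 3)).image (fun u => a + pos n b (e i) i u)

/-- A short-orbit block. -/
def sb (a : ZMod n) : Finset (ZMod n) := univ.filter (fun w => 3 * (w - a) = 0)

open Classical in
/-- The block set. -/
noncomputable def BB (n : ℕ) [NeZero n] (b : ℕ → ℕ) (e : ℕ → Bool) : Finset (Finset (ZMod n)) :=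
  univ.filter (fun B => (∃ i, i < (n - 1) / 6 ∧ ∃ a, B = blk n b e i a) ∨ (3 ∣ n ∧ ∃ a, B = sb a))

theorem mem_BB {b : ℕ → ℕ} {e : ℕ → Bool} {B : Finset (ZMod n)} : B ∈ BB n b e ↔
    (∃ i, i < (n - 1) / 6 ∧ ∃ a, B = blk n b e i a) ∨ (3 ∣ n ∧ ∃ a, B = sb a) := by
  classical
  simp [BB]

theorem mem_blk {b : ℕ → ℕ} {e : ℕ → Bool} {i : ℕ} {a x : ZMod n} :
    x ∈ blk n b e i a ↔ ∃ u, a + pos n b (e i) i u = x := by
  simp [blk]

theorem mem_sb {a x : ZMod n} : x ∈ sb a ↔ 3 * (x - a) = 0 := by simp [sb]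

theorem three_zero {h : n % 6 = 1 ∨ n % 6 = 3} (h3 : ¬ 3 ∣ n) {d : ZMod n} (hd : 3 * d = 0) : d = 0 := by
  have h1 := card_three_eq (n := n) h
  rw [if_neg (by omega)] at h1
  obtain ⟨x, hx⟩ := Finset.card_eq_one.1 h1
  have h2 : (0 : ZMod n) ∈ univ.filter (fun d : ZMod n => 3 * d = 0) := by simp
  have h3 : d ∈ univ.filter (fun d : ZMod n => 3 * d = 0) := by simpa using hd
  rw [hx, Finset.mem_singleton] at h2 h3
  rw [h2, h3]

theorem isCyc_BB {b : ℕ → ℕ} (h : n % 6 = 1 ∨ n % 6 = 3) (H : Heff n ((n - 1) / 6) b)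
    (e : ℕ → Bool) : IsCyc n (BB n b e) := by
  classical
  refine ⟨?_, ?_, ?_⟩
  · intro B hB
    rcases mem_BB.1 hB with ⟨i, hi, a, rfl⟩ | ⟨h3, a, rfl⟩
    · rw [blk, Finset.card_image_of_injective]
      · simp
      · intro u w huw
        exact pos_injective H e hi (add_left_cancel huw)
    · have h1 := card_three_eq (n := n) h
      rw [if_pos (by omega)] at h1
      rw [← h1]
      apply Finset.card_bij (fun w _ => w - a)
      · intro w hw
        simpa using mem_sb.1 hw
      · intro w _ w' _ hh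
        exact sub_left_injective hh
      · intro d hd
        refine ⟨d + a, ?_, by ring⟩
        rw [mem_sb]
        have : 3 * d = 0 := by simpa using hd
        rw [← this]; ring
  · intro x y hxy
    by_cases h3 : 3 * (y - x) = 0
    · have hn3 : 3 ∣ n := by
        by_contra hcon
        exact hxy (sub_eq_zero.1 (three_zero (h := h) hcon h3)).symm
      refine ⟨sb x, ⟨mem_BB.2 (Or.inr ⟨hn3, x, rfl⟩), mem_sb.2 (by simp), mem_sb.2 h3⟩, ?_⟩
      rintro B ⟨hB, hx, hy⟩
      rcases mem_BB.1 hB with ⟨i, hi, a, rfl⟩ | ⟨_, a, rfl⟩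
      · exfalso
        obtain ⟨u, hu⟩ := mem_blk.1 hx
        obtain ⟨w, hw⟩ := mem_blk.1 hy
        have huw : u ≠ w := by
          rintro rfl
          exact hxy (hu.symm.trans hw)
        apply pos_three H e hi huw
        rw [← h3, ← hu, ← hw]; ring
      · rw [mem_sb] at hx
        ext w
        rw [mem_sb, mem_sb]
        constructor
        · intro hw
          linear_combination hw - hx
        · intro hw
          linear_combination hw + hx
    · obtain ⟨i, hi, u, w, huw, hd⟩ := pos_surj h H e (y - x) h3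
      refine ⟨blk n b e i (x - pos n b (e i) i u), ⟨mem_BB.2 (Or.inl ⟨i, hi, _, rfl⟩),
        mem_blk.2 ⟨u, by ring⟩, mem_blk.2 ⟨w, by linear_combination hd⟩⟩, ?_⟩
      rintro B ⟨hB, hx, hy⟩
      rcases mem_BB.1 hB with ⟨i', hi', a, rfl⟩ | ⟨_, a, rfl⟩
      · obtain ⟨u', hu'⟩ := mem_blk.1 hx
        obtain ⟨w', hw'⟩ := mem_blk.1 hy
        have huw' : u' ≠ w' := by
          rintro rfl
          exact hxy (hu'.symm.trans hw')
        have hdd : pos n b (e i) i w - pos n b (e i) i u =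
            pos n b (e i') i' w' - pos n b (e i') i' u' := by
          rw [hd, ← hu', ← hw']; ring
        obtain ⟨h1, h2, h4⟩ := pos_inj H e hi hi' huw huw' hdd
        subst h1; subst h2; subst h4
        have : a = x - pos n b (e i) i u := by rw [← hu']; ring
        rw [this]
      · exfalso
        apply h3
        rw [mem_sb] at hx hy
        linear_combination hy - hx
  · intro B hB
    rcases mem_BB.1 hB with ⟨i, hi, a, rfl⟩ | ⟨h3, a, rfl⟩
    · refine mem_BB.2 (Or.inl ⟨i, hi, a + 1, ?_⟩)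
      ext x
      simp only [mem_image, mem_blk]
      constructor
      · rintro ⟨_, ⟨u, rfl⟩, rfl⟩
        exact ⟨u, by ring⟩
      · rintro ⟨u, rfl⟩
        exact ⟨_, ⟨u, rfl⟩, by ring⟩
    · refine mem_BB.2 (Or.inr ⟨h3, a + 1, ?_⟩)
      ext x
      simp only [mem_image, mem_sb]
      constructor
      · rintro ⟨w, hw, rfl⟩
        rw [← hw]; ring
      · intro hx
        exact ⟨x - 1, by rw [← hx]; ring, by ring⟩

/-- Different sign patterns give different systems. -/
theorem BB_inj {b : ℕ → ℕ} (h : n % 6 = 1 ∨ n % 6 = 3) (H : Heff n ((n - 1) / 6) b)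
    (e e' : ℕ → Bool) (hee : BB n b e = BB n b e') (i : ℕ) (hi : i < (n - 1) / 6) : e i = e' i := by
  by_contra hne
  have hz0 : pos n b (e i) i 2 = pos n b (e' i) i 2 := rfl
  have h0 : pos n b (e i) i 0 = pos n b (e' i) i 0 := rfl
  have hne2 : pos n b (e i) i 0 ≠ pos n b (e i) i 2 := fun hh =>
    absurd (pos_injective H e hi hh) (by decide)
  have hne3 : (0 : ZMod n) + pos n b (e i) i 0 ≠ 0 + pos n b (e i) i 2 := by simpa using hne2
  have hu := (isCyc_BB h H e).2.1 _ _ hne3
  have m1 : blk n b e i 0 ∈ BB n b e := mem_BB.2 (Or.inl ⟨i, hi, 0, rfl⟩)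
  have m2 : blk n b e' i 0 ∈ BB n b e := by rw [hee]; exact mem_BB.2 (Or.inl ⟨i, hi, 0, rfl⟩)
  have heq := hu.unique ⟨m1, mem_blk.2 ⟨0, rfl⟩, mem_blk.2 ⟨2, rfl⟩⟩
    ⟨m2, mem_blk.2 ⟨0, rfl⟩, mem_blk.2 ⟨2, rfl⟩⟩
  have h1 : (0 : ZMod n) + pos n b (e i) i 1 ∈ blk n b e' i 0 := by
    rw [← heq]; exact mem_blk.2 ⟨1, rfl⟩
  obtain ⟨u, hu⟩ := mem_blk.1 h1
  have hu' : pos n b (e' i) i u = pos n b (e i) i 1 := add_left_cancel hu
  fin_cases u
  · have : pos n b (e i) i 0 = pos n b (e i) i 1 := hu'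
    exact absurd (pos_injective H e hi this) (by decide)
  · have h2 : pos n b (e' i) i 1 = pos n b (e i) i 1 := hu'
    have hv := vv_inj (n := n) H hi hi (j := 0) (j' := 1)
    have hv' := vv_inj (n := n) H hi hi (j := 1) (j' := 0)
    have key : (vv n b i 0 : ZMod n) ≠ (vv n b i 1 : ZMod n) := by
      intro hc
      rw [cast_eq_iff hv.2.1 hv'.2.1] at hc
      exact absurd (hv.2.2.2.2.2 hc).2 (by decide)
    rcases he : e i with _ | _ <;> rcases he' : e' i with _ | _
    · exact hne (he.trans he'.symm)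
    · rw [he, he'] at h2
      simp only [pos] at h2
      simp at h2
      exact key h2
    · rw [he, he'] at h2
      simp only [pos] at h2
      simp at h2
      exact key h2.symm
    · exact hne (he.trans he'.symm)
  · have : pos n b (e i) i 2 = pos n b (e i) i 1 := hu'
    exact absurd (pos_injective H e hi this) (by decide)

end

end Pool.Agent.W230.CSTS
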