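import Mathlib

/-! Explicit solutions of Heffter's difference problems (after Peltesohn), in a weak form:
for `n = 6 k + 1` or `6 k + 3` a function `b` such that the `3 k` numbers `i`, `b i`, `i + b i`
(`1 ≤ i ≤ k`) are pairwise distinct up to sign modulo `n`, and none of them is killed by `3`. -/

set_option autoImplicit false

namespace Pool.Agent.W230.CSTS

/-- Heffter data: `b : ℕ → ℕ` such that the numbers `i, b i, i + b i`, `1 ≤ i ≤ k`, are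
distinct up to sign modulo `n`, and nonzero after multiplication by three. -/
structure Heff (n k : ℕ) (b : ℕ → ℕ) : Prop where
  lt : ∀ i, 1 ≤ i → i ≤ k → k < b i ∧ i + b i < n ∧ 3 * i ≠ n
  b3 : ∀ i, 1 ≤ i → i ≤ k → 3 * b i ≠ n ∧ 3 * b i ≠ 2 * n
  c3 : ∀ i, 1 ≤ i → i ≤ k → 3 * (i + b i) ≠ n ∧ 3 * (i + b i) ≠ 2 * n
  pr : ∀ i j, 1 ≤ i → i ≤ k → 1 ≤ j → j ≤ k →
    (i ≠ j → b i ≠ b j) ∧ b i + b j ≠ n ∧ (i ≠ j → i + b i ≠ j + b j) ∧
    (i + b i) + (j + b j) ≠ n ∧ b i ≠ j + b j ∧ b i + (j + b j) ≠ n ∧ i + b j ≠ n ∧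
    i + (j + b j) ≠ n ∧ i + j ≠ n

/-- the function for `n = 18 s + 1` -/
def b1 (s i : ℕ) : ℕ :=
    if i = 3 * s then 3 * s + 1 else if i % 3 = 1 then 4 * s - (i - 1) / 3 + 1 else
      if i % 3 = 2 then 8 * s - (i - 2) / 3 else 6 * s - 2 * ((i - 3) / 3) - 1

theorem b1_spec (s i : ℕ) (hs : 4 ≤ s) (h1 : 1 ≤ i) (h2 : i ≤ 3 * s) :
    ∃ r, (i = 3 * s ∧ b1 s i = 3 * s + 1) ∨
      (i = 3 * r + 1 ∧ r + 1 ≤ s ∧ b1 s i + r = 4 * s + 1) ∨
      (i = 3 * r + 2 ∧ r + 1 ≤ s ∧ b1 s i + r = 8 * s) ∨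
      (i = 3 * r + 3 ∧ r + 2 ≤ s ∧ b1 s i + 2 * r + 1 = 6 * s) := by
  refine ⟨(i - 1) / 3, ?_⟩
  unfold b1
  split_ifs
  · left; refine ⟨?_, ?_⟩ <;> omega
  · right; left; refine ⟨?_, ?_⟩ <;> omega
  · right; right; left; refine ⟨?_, ?_⟩ <;> omega
  · right; right; right; refine ⟨?_, ?_⟩ <;> omega

theorem heff1 (s : ℕ) (hs : 4 ≤ s) : Heff (18 * s + 1) (3 * s) (b1 s) := by
  constructor
  · intro i h1 h2
    obtain ⟨r, hi⟩ := b1_spec s i hs h1 h2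
    generalize b1 s i = B at *
    rcases hi with hi | hi | hi | hi <;> omega
  · intro i h1 h2
    obtain ⟨r, hi⟩ := b1_spec s i hs h1 h2
    generalize b1 s i = B at *
    rcases hi with hi | hi | hi | hi <;> omega
  · intro i h1 h2
    obtain ⟨r, hi⟩ := b1_spec s i hs h1 h2
    generalize b1 s i = B at *
    rcases hi with hi | hi | hi | hi <;> omega
  · intro i j h1 h2 h3 h4
    obtain ⟨r, hi⟩ := b1_spec s i hs h1 h2
    obtain ⟨t, hj⟩ := b1_spec s j hs h3 h4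
    generalize b1 s i = B at *
    generalize b1 s j = C at *
    rcases hi with hi | hi | hi | hi <;>
    rcases hj with hj | hj | hj | hj <;>
    (refine ⟨?_, ?_, ?_, ?_, ?_, ?_, ?_, ?_, ?_⟩ <;> omega)

/-- the function for `n = 18 s + 7` -/
def b7 (s i : ℕ) : ℕ :=
    if i = 3 * s + 1 then 4 * s + 2 else if i % 3 = 1 then 8 * s - (i - 1) / 3 + 3 else
      if i % 3 = 2 then 6 * s - 2 * ((i - 2) / 3) + 1 else 4 * s - (i - 3) / 3 + 1

theorem b7_spec (s i : ℕ) (hs : 4 ≤ s) (h1 : 1 ≤ i) (h2 : i ≤ 3 * s + 1) :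
    ∃ r, (i = 3 * s + 1 ∧ b7 s i = 4 * s + 2) ∨
      (i = 3 * r + 1 ∧ r + 1 ≤ s ∧ b7 s i + r = 8 * s + 3) ∨
      (i = 3 * r + 2 ∧ r + 1 ≤ s ∧ b7 s i + 2 * r = 6 * s + 1) ∨
      (i = 3 * r + 3 ∧ r + 1 ≤ s ∧ b7 s i + r = 4 * s + 1) := by
  refine ⟨(i - 1) / 3, ?_⟩
  unfold b7
  split_ifs
  · left; refine ⟨?_, ?_⟩ <;> omega
  · right; left; refine ⟨?_, ?_⟩ <;> omega
  · right; right; left; refine ⟨?_, ?_⟩ <;> omega
  · right; right; right; refine ⟨?_, ?_⟩ <;> omega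

theorem heff7 (s : ℕ) (hs : 4 ≤ s) : Heff (18 * s + 7) (3 * s + 1) (b7 s) := by
  constructor
  · intro i h1 h2
    obtain ⟨r, hi⟩ := b7_spec s i hs h1 h2
    generalize b7 s i = B at *
    rcases hi with hi | hi | hi | hi <;> omega
  · intro i h1 h2
    obtain ⟨r, hi⟩ := b7_spec s i hs h1 h2
    generalize b7 s i = B at *
    rcases hi with hi | hi | hi | hi <;> omega
  · intro i h1 h2
    obtain ⟨r, hi⟩ := b7_spec s i hs h1 h2
    generalize b7 s i = B at *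
    rcases hi with hi | hi | hi | hi <;> omega
  · intro i j h1 h2 h3 h4
    obtain ⟨r, hi⟩ := b7_spec s i hs h1 h2
    obtain ⟨t, hj⟩ := b7_spec s j hs h3 h4
    generalize b7 s i = B at *
    generalize b7 s j = C at *
    rcases hi with hi | hi | hi | hi <;>
    rcases hj with hj | hj | hj | hj <;>
    (refine ⟨?_, ?_, ?_, ?_, ?_, ?_, ?_, ?_, ?_⟩ <;> omega)

/-- the function for `n = 18 s + 13` -/
def b13 (s i : ℕ) : ℕ :=
    if i = 3 * s + 2 then 7 * s + 5 else if i % 3 = 1 then 4 * s - (i - 1) / 3 + 3 else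
      if i % 3 = 2 then 6 * s - 2 * ((i - 2) / 3) + 3 else 8 * s - (i - 3) / 3 + 5

theorem b13_spec (s i : ℕ) (hs : 4 ≤ s) (h1 : 1 ≤ i) (h2 : i ≤ 3 * s + 2) :
    ∃ r, (i = 3 * s + 2 ∧ b13 s i = 7 * s + 5) ∨
      (i = 3 * r + 1 ∧ r ≤ s ∧ b13 s i + r = 4 * s + 3) ∨
      (i = 3 * r + 2 ∧ r + 1 ≤ s ∧ b13 s i + 2 * r = 6 * s + 3) ∨
      (i = 3 * r + 3 ∧ r + 1 ≤ s ∧ b13 s i + r = 8 * s + 5) := by
  refine ⟨(i - 1) / 3, ?_⟩
  unfold b13
  split_ifs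
  · left; refine ⟨?_, ?_⟩ <;> omega
  · right; left; refine ⟨?_, ?_⟩ <;> omega
  · right; right; left; refine ⟨?_, ?_⟩ <;> omega
  · right; right; right; refine ⟨?_, ?_⟩ <;> omega

theorem heff13 (s : ℕ) (hs : 4 ≤ s) : Heff (18 * s + 13) (3 * s + 2) (b13 s) := by
  constructor
  · intro i h1 h2
    obtain ⟨r, hi⟩ := b13_spec s i hs h1 h2
    generalize b13 s i = B at *
    rcases hi with hi | hi | hi | hi <;> omega
  · intro i h1 h2
    obtain ⟨r, hi⟩ := b13_spec s i hs h1 h2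
    generalize b13 s i = B at *
    rcases hi with hi | hi | hi | hi <;> omega
  · intro i h1 h2
    obtain ⟨r, hi⟩ := b13_spec s i hs h1 h2
    generalize b13 s i = B at *
    rcases hi with hi | hi | hi | hi <;> omega
  · intro i j h1 h2 h3 h4
    obtain ⟨r, hi⟩ := b13_spec s i hs h1 h2
    obtain ⟨t, hj⟩ := b13_spec s j hs h3 h4
    generalize b13 s i = B at *
    generalize b13 s j = C at *
    rcases hi with hi | hi | hi | hi <;>
    rcases hj with hj | hj | hj | hj <;>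
    (refine ⟨?_, ?_, ?_, ?_, ?_, ?_, ?_, ?_, ?_⟩ <;> omega)

/-- the function for `n = 18 s + 3` -/
def b3 (s i : ℕ) : ℕ :=
    if i % 3 = 1 then 8 * s - (i - 1) / 3 + 1 else
      if i % 3 = 2 then 4 * s - (i - 2) / 3 else 6 * s - 2 * ((i - 3) / 3) - 1

theorem b3_spec (s i : ℕ) (hs : 4 ≤ s) (h1 : 1 ≤ i) (h2 : i ≤ 3 * s) :
    ∃ r, (i = 3 * r + 1 ∧ r + 1 ≤ s ∧ b3 s i + r = 8 * s + 1) ∨
      (i = 3 * r + 2 ∧ r + 1 ≤ s ∧ b3 s i + r = 4 * s) ∨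
      (i = 3 * r + 3 ∧ r + 1 ≤ s ∧ b3 s i + 2 * r + 1 = 6 * s) := by
  refine ⟨(i - 1) / 3, ?_⟩
  unfold b3
  split_ifs
  · left; refine ⟨?_, ?_⟩ <;> omega
  · right; left; refine ⟨?_, ?_⟩ <;> omega
  · right; right; refine ⟨?_, ?_⟩ <;> omega

theorem heff3 (s : ℕ) (hs : 4 ≤ s) : Heff (18 * s + 3) (3 * s) (b3 s) := by
  constructor
  · intro i h1 h2
    obtain ⟨r, hi⟩ := b3_spec s i hs h1 h2
    generalize b3 s i = B at *
    rcases hi with hi | hi | hi <;> omega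
  · intro i h1 h2
    obtain ⟨r, hi⟩ := b3_spec s i hs h1 h2
    generalize b3 s i = B at *
    rcases hi with hi | hi | hi <;> omega
  · intro i h1 h2
    obtain ⟨r, hi⟩ := b3_spec s i hs h1 h2
    generalize b3 s i = B at *
    rcases hi with hi | hi | hi <;> omega
  · intro i j h1 h2 h3 h4
    obtain ⟨r, hi⟩ := b3_spec s i hs h1 h2
    obtain ⟨t, hj⟩ := b3_spec s j hs h3 h4
    generalize b3 s i = B at *
    generalize b3 s j = C at *
    rcases hi with hi | hi | hi <;>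
    rcases hj with hj | hj | hj <;>
    (refine ⟨?_, ?_, ?_, ?_, ?_, ?_, ?_, ?_, ?_⟩ <;> omega)

/-- the function for `n = 18 s + 9` -/
def b9 (s i : ℕ) : ℕ :=
    if i = 2 then 8 * s + 3 else if i = 3 then 8 * s + 1 else if i = 5 then 8 * s + 2
      else if i = 3 * s - 1 then 3 * s + 2 else if i = 3 * s then 7 * s + 3 else
      if i % 3 = 1 then 4 * s - (i - 1) / 3 + 3 else
      if i % 3 = 2 then 8 * s - (i - 2) / 3 + 2 else 6 * s - 2 * ((i - 3) / 3) + 1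

theorem b9_spec (s i : ℕ) (hs : 4 ≤ s) (h1 : 1 ≤ i) (h2 : i ≤ 3 * s + 1) :
    ∃ r, (i = 2 ∧ b9 s i = 8 * s + 3) ∨
      (i = 3 ∧ b9 s i = 8 * s + 1) ∨
      (i = 5 ∧ b9 s i = 8 * s + 2) ∨
      (i + 1 = 3 * s ∧ b9 s i = 3 * s + 2) ∨
      (i = 3 * s ∧ b9 s i = 7 * s + 3) ∨
      (i = 3 * r + 1 ∧ r ≤ s ∧ b9 s i + r = 4 * s + 3) ∨
      (i = 3 * r + 2 ∧ 2 ≤ r ∧ r + 2 ≤ s ∧ b9 s i + r = 8 * s + 2) ∨
      (i = 3 * r + 3 ∧ 1 ≤ r ∧ r + 2 ≤ s ∧ b9 s i + 2 * r = 6 * s + 1) := by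
  refine ⟨(i - 1) / 3, ?_⟩
  unfold b9
  split_ifs
  · left; refine ⟨?_, ?_⟩ <;> omega
  · right; left; refine ⟨?_, ?_⟩ <;> omega
  · right; right; left; refine ⟨?_, ?_⟩ <;> omega
  · right; right; right; left; refine ⟨?_, ?_⟩ <;> omega
  · right; right; right; right; left; refine ⟨?_, ?_⟩ <;> omega
  · right; right; right; right; right; left; refine ⟨?_, ?_⟩ <;> omega
  · right; right; right; right; right; right; left; refine ⟨?_, ?_⟩ <;> omega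
  · right; right; right; right; right; right; right; refine ⟨?_, ?_⟩ <;> omega

theorem heff9 (s : ℕ) (hs : 4 ≤ s) : Heff (18 * s + 9) (3 * s + 1) (b9 s) := by
  constructor
  · intro i h1 h2
    obtain ⟨r, hi⟩ := b9_spec s i hs h1 h2
    generalize b9 s i = B at *
    rcases hi with hi | hi | hi | hi | hi | hi | hi | hi <;> omega
  · intro i h1 h2
    obtain ⟨r, hi⟩ := b9_spec s i hs h1 h2
    generalize b9 s i = B at *
    rcases hi with hi | hi | hi | hi | hi | hi | hi | hi <;> omega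
  · intro i h1 h2
    obtain ⟨r, hi⟩ := b9_spec s i hs h1 h2
    generalize b9 s i = B at *
    rcases hi with hi | hi | hi | hi | hi | hi | hi | hi <;> omega
  · intro i j h1 h2 h3 h4
    obtain ⟨r, hi⟩ := b9_spec s i hs h1 h2
    obtain ⟨t, hj⟩ := b9_spec s j hs h3 h4
    generalize b9 s i = B at *
    generalize b9 s j = C at *
    rcases hi with hi | hi | hi | hi | hi | hi | hi | hi <;>
    rcases hj with hj | hj | hj | hj | hj | hj | hj | hj <;>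
    (refine ⟨?_, ?_, ?_, ?_, ?_, ?_, ?_, ?_, ?_⟩ <;> omega)

/-- the function for `n = 18 s + 15` -/
def b15 (s i : ℕ) : ℕ :=
    if i % 3 = 1 then 4 * s - (i - 1) / 3 + 3 else
      if i % 3 = 2 then 8 * s - (i - 2) / 3 + 6 else 6 * s - 2 * ((i - 3) / 3) + 3

theorem b15_spec (s i : ℕ) (hs : 4 ≤ s) (h1 : 1 ≤ i) (h2 : i ≤ 3 * s + 2) :
    ∃ r, (i = 3 * r + 1 ∧ r ≤ s ∧ b15 s i + r = 4 * s + 3) ∨
      (i = 3 * r + 2 ∧ r ≤ s ∧ b15 s i + r = 8 * s + 6) ∨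
      (i = 3 * r + 3 ∧ r + 1 ≤ s ∧ b15 s i + 2 * r = 6 * s + 3) := by
  refine ⟨(i - 1) / 3, ?_⟩
  unfold b15
  split_ifs
  · left; refine ⟨?_, ?_⟩ <;> omega
  · right; left; refine ⟨?_, ?_⟩ <;> omega
  · right; right; refine ⟨?_, ?_⟩ <;> omega

theorem heff15 (s : ℕ) (hs : 4 ≤ s) : Heff (18 * s + 15) (3 * s + 2) (b15 s) := by
  constructor
  · intro i h1 h2
    obtain ⟨r, hi⟩ := b15_spec s i hs h1 h2
    generalize b15 s i = B at *
    rcases hi with hi | hi | hi <;> omega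
  · intro i h1 h2
    obtain ⟨r, hi⟩ := b15_spec s i hs h1 h2
    generalize b15 s i = B at *
    rcases hi with hi | hi | hi <;> omega
  · intro i h1 h2
    obtain ⟨r, hi⟩ := b15_spec s i hs h1 h2
    generalize b15 s i = B at *
    rcases hi with hi | hi | hi <;> omega
  · intro i j h1 h2 h3 h4
    obtain ⟨r, hi⟩ := b15_spec s i hs h1 h2
    obtain ⟨t, hj⟩ := b15_spec s j hs h3 h4
    generalize b15 s i = B at *
    generalize b15 s j = C at *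
    rcases hi with hi | hi | hi <;>
    rcases hj with hj | hj | hj <;>
    (refine ⟨?_, ?_, ?_, ?_, ?_, ?_, ?_, ?_, ?_⟩ <;> omega)

/-- Heffter data exist for all large admissible orders. -/
theorem exists_heff (n : ℕ) (hn : 100 ≤ n) (h : n % 6 = 1 ∨ n % 6 = 3) :
    ∃ b : ℕ → ℕ, Heff n ((n - 1) / 6) b := by
  have h18 : n % 18 = 1 ∨ n % 18 = 7 ∨ n % 18 = 13 ∨ n % 18 = 3 ∨ n % 18 = 9 ∨ n % 18 = 15 := by
    omega
  rcases h18 with h | h | h | h | h | h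
  · obtain ⟨s, rfl⟩ : ∃ s, n = 18 * s + 1 := ⟨n / 18, by omega⟩
    have e : (18 * s + 1 - 1) / 6 = 3 * s := by omega
    rw [e]; exact ⟨_, heff1 s (by omega)⟩
  · obtain ⟨s, rfl⟩ : ∃ s, n = 18 * s + 7 := ⟨n / 18, by omega⟩
    have e : (18 * s + 7 - 1) / 6 = 3 * s + 1 := by omega
    rw [e]; exact ⟨_, heff7 s (by omega)⟩
  · obtain ⟨s, rfl⟩ : ∃ s, n = 18 * s + 13 := ⟨n / 18, by omega⟩
    have e : (18 * s + 13 - 1) / 6 = 3 * s + 2 := by omega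
    rw [e]; exact ⟨_, heff13 s (by omega)⟩
  · obtain ⟨s, rfl⟩ : ∃ s, n = 18 * s + 3 := ⟨n / 18, by omega⟩
    have e : (18 * s + 3 - 1) / 6 = 3 * s := by omega
    rw [e]; exact ⟨_, heff3 s (by omega)⟩
  · obtain ⟨s, rfl⟩ : ∃ s, n = 18 * s + 9 := ⟨n / 18, by omega⟩
    have e : (18 * s + 9 - 1) / 6 = 3 * s + 1 := by omega
    rw [e]; exact ⟨_, heff9 s (by omega)⟩
  · obtain ⟨s, rfl⟩ : ∃ s, n = 18 * s + 15 := ⟨n / 18, by omega⟩
    have e : (18 * s + 15 - 1) / 6 = 3 * s + 2 := by omega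
    rw [e]; exact ⟨_, heff15 s (by omega)⟩

end Pool.Agent.W230.CSTS
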